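import Mathlib

/-!
Cumulants of trigonometric sums: derivatives of logarithms, moments of cosines.
-/

namespace Q33.Cum

open MeasureTheory ProbabilityTheory Finset Filter Topology

/-- the derivatives of `log f` at `0` up to order `m` are determined by those of `f` -/
theorem log_iteratedDeriv_eq {f g : ℝ → ℝ} (hf : ∀ t, 0 < f t) (hg : ∀ t, 0 < g t)
    (cf : ContDiff ℝ ⊤ f) (cg : ContDiff ℝ ⊤ g) (m : ℕ)
    (h : ∀ j ≤ m, iteratedDeriv j f 0 = iteratedDeriv j g 0) :
    ∀ j ≤ m, iteratedDeriv j (fun t => Real.log (f t)) 0 =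
      iteratedDeriv j (fun t => Real.log (g t)) 0 := by
  have key : ∀ {f : ℝ → ℝ} (_ : ∀ t, 0 < f t) (_ : ContDiff ℝ ⊤ f) (j : ℕ),
      iteratedDeriv (j + 1) f 0 = ∑ i ∈ range (j + 1),
        (j.choose i : ℝ) * iteratedDeriv (i + 1) (fun t => Real.log (f t)) 0 *
          iteratedDeriv (j - i) f 0 := by
    intro f hf cf j
    have cl : ContDiff ℝ ⊤ (fun t => Real.log (f t)) := cf.log fun t => (hf t).ne'
    have cd : ContDiff ℝ ⊤ (deriv (fun t => Real.log (f t))) := by
      have : ContDiff ℝ (⊤ + 1) (fun t => Real.log (f t)) := cl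
      exact (contDiff_succ_iff_deriv.1 this).2.2
    have e : deriv f = deriv (fun t => Real.log (f t)) * f := by
      funext t
      have hd : DifferentiableAt ℝ f t := (cf.differentiable (by simp)) t
      rw [Pi.mul_apply, deriv.log hd (hf t).ne', div_mul_cancel₀ _ (hf t).ne']
    rw [iteratedDeriv_succ', e, iteratedDeriv_mul (cd.contDiffAt.of_le le_top)
      (cf.contDiffAt.of_le le_top)]
    refine sum_congr rfl fun i _ => ?_
    rw [iteratedDeriv_succ']
  intro j
  induction j using Nat.strong_induction_on with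
  | _ j ih =>
    intro hj
    rcases j with _ | j
    · simp only [iteratedDeriv_zero]
      have := h 0 (Nat.zero_le _)
      simp only [iteratedDeriv_zero] at this
      rw [this]
    · have k1 := key hf cf j
      have k2 := key hg cg j
      rw [sum_range_succ] at k1 k2
      have e0 : f 0 = g 0 := by
        have := h 0 (Nat.zero_le _)
        simpa only [iteratedDeriv_zero] using this
      have e1 : ∑ i ∈ range j, (j.choose i : ℝ) *
          iteratedDeriv (i + 1) (fun t => Real.log (f t)) 0 * iteratedDeriv (j - i) f 0 =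
          ∑ i ∈ range j, (j.choose i : ℝ) *
          iteratedDeriv (i + 1) (fun t => Real.log (g t)) 0 * iteratedDeriv (j - i) g 0 := by
        refine sum_congr rfl fun i hi => ?_
        rw [mem_range] at hi
        rw [ih (i + 1) (by omega) (by omega), h (j - i) (by omega)]
      rw [e1] at k1
      rw [h (j + 1) hj, k2] at k1
      simp only [Nat.choose_self, Nat.cast_one, one_mul, Nat.sub_self, iteratedDeriv_zero] at k1
      rw [e0] at k1
      have k3 := add_left_cancel k1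
      exact (mul_right_cancel₀ (hg 0).ne' k3).symm

section prob
variable {Ω : Type*} [MeasurableSpace Ω] {μ : Measure Ω} [IsProbabilityMeasure μ]

/-- a bounded measurable function -/
def Bdd (X : Ω → ℝ) : Prop := Measurable X ∧ ∃ C : ℝ, ∀ ω, |X ω| ≤ C

theorem Bdd.integrable {X : Ω → ℝ} (h : Bdd X) : Integrable X μ := by
  obtain ⟨hm, C, hC⟩ := h
  exact Integrable.of_bound hm.aestronglyMeasurable C (Eventually.of_forall fun ω => by
    simpa using hC ω)

theorem Bdd.mul {X Y : Ω → ℝ} (hX : Bdd X) (hY : Bdd Y) : Bdd (X * Y) := by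
  obtain ⟨hm, C, hC⟩ := hX
  obtain ⟨hm', C', hC'⟩ := hY
  refine ⟨hm.mul hm', C * C', fun ω => ?_⟩
  rw [Pi.mul_apply, abs_mul]
  exact mul_le_mul (hC ω) (hC' ω) (abs_nonneg _) ((abs_nonneg _).trans (hC ω))

theorem Bdd.add {X Y : Ω → ℝ} (hX : Bdd X) (hY : Bdd Y) : Bdd (X + Y) := by
  obtain ⟨hm, C, hC⟩ := hX
  obtain ⟨hm', C', hC'⟩ := hY
  exact ⟨hm.add hm', C + C', fun ω => (abs_add_le _ _).trans (add_le_add (hC ω) (hC' ω))⟩

theorem Bdd.pow {X : Ω → ℝ} (hX : Bdd X) (n : ℕ) : Bdd (X ^ n) := by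
  obtain ⟨hm, C, hC⟩ := hX
  refine ⟨hm.pow_const n, C ^ n, fun ω => ?_⟩
  rw [Pi.pow_apply, abs_pow]
  exact pow_le_pow_left₀ (abs_nonneg _) (hC ω) n

theorem Bdd.smul {X : Ω → ℝ} (hX : Bdd X) (c : ℝ) : Bdd (c • X) := by
  obtain ⟨hm, C, hC⟩ := hX
  refine ⟨hm.const_smul c, |c| * C, fun ω => ?_⟩
  rw [Pi.smul_apply, smul_eq_mul, abs_mul]
  exact mul_le_mul_of_nonneg_left (hC ω) (abs_nonneg _)

theorem bdd_zero : Bdd (0 : Ω → ℝ) := ⟨measurable_zero, 0, fun ω => by simp⟩

theorem Bdd.expSet {X : Ω → ℝ} (h : Bdd X) : integrableExpSet X μ = Set.univ := by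
  obtain ⟨hm, C, hC⟩ := h
  ext t
  simp only [Set.mem_univ, iff_true]
  refine Integrable.of_bound ((hm.const_mul t).exp).aestronglyMeasurable (Real.exp (|t| * C))
    (Eventually.of_forall fun ω => ?_)
  rw [Real.norm_eq_abs, Real.abs_exp]
  apply Real.exp_le_exp.2
  calc t * X ω ≤ |t * X ω| := le_abs_self _
    _ = |t| * |X ω| := abs_mul _ _
    _ ≤ |t| * C := mul_le_mul_of_nonneg_left (hC ω) (abs_nonneg _)

theorem Bdd.mem_interior {X : Ω → ℝ} (h : Bdd X) (t : ℝ) :
    t ∈ interior (integrableExpSet X μ) := by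
  rw [h.expSet, interior_univ]; trivial

theorem Bdd.mgf_pos {X : Ω → ℝ} (h : Bdd X) (t : ℝ) : 0 < mgf X μ t := by
  apply ProbabilityTheory.mgf_pos
  have : t ∈ integrableExpSet X μ := by rw [h.expSet]; trivial
  exact this

theorem Bdd.contDiff_mgf {X : Ω → ℝ} (h : Bdd X) : ContDiff ℝ ⊤ (mgf X μ) :=
  contDiff_iff_contDiffAt.2 fun t => (analyticAt_mgf (h.mem_interior t)).contDiffAt

/-- the `m`-th cumulant -/
noncomputable def kappa (m : ℕ) (X : Ω → ℝ) (μ : Measure Ω) : ℝ :=
  iteratedDeriv m (fun t => Real.log (∫ ω, Real.exp (t * X ω) ∂μ)) 0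

theorem kappa_eq (m : ℕ) (X : Ω → ℝ) : kappa m X μ = iteratedDeriv m (cgf X μ) 0 := rfl

/-- additivity of the cumulants up to order `m` when the mixed moments factor up to order `m` -/
theorem kappa_add {X Y : Ω → ℝ} (hX : Bdd X) (hY : Bdd Y) (m : ℕ)
    (h : ∀ i j, i + j ≤ m → ∫ ω, (X ^ i * Y ^ j) ω ∂μ = (∫ ω, (X ^ i) ω ∂μ) * ∫ ω, (Y ^ j) ω ∂μ) :
    kappa m (X + Y) μ = kappa m X μ + kappa m Y μ := by
  have h1 := log_iteratedDeriv_eq (f := mgf (X + Y) μ) (g := mgf X μ * mgf Y μ)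
    (fun t => (hX.add hY).mgf_pos t)
    (fun t => mul_pos (hX.mgf_pos t) (hY.mgf_pos t)) (hX.add hY).contDiff_mgf
    (hX.contDiff_mgf.mul hY.contDiff_mgf) m ?_ m le_rfl
  · rw [kappa_eq, kappa_eq, kappa_eq]
    have e1 : (fun t => Real.log ((mgf X μ * mgf Y μ) t)) = cgf X μ + cgf Y μ := by
      funext t
      rw [Pi.mul_apply, Real.log_mul (hX.mgf_pos t).ne' (hY.mgf_pos t).ne']
      rfl
    rw [e1, iteratedDeriv_add] at h1
    · exact h1
    · exact ((hX.contDiff_mgf (μ := μ)).log fun t => (hX.mgf_pos t).ne').contDiffAt.of_le le_top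
    · exact ((hY.contDiff_mgf (μ := μ)).log fun t => (hY.mgf_pos t).ne').contDiffAt.of_le le_top
  · intro j hj
    rw [iteratedDeriv_mgf_zero ((hX.add hY).mem_interior 0),
      iteratedDeriv_mul (hX.contDiff_mgf.contDiffAt.of_le le_top)
        (hY.contDiff_mgf.contDiffAt.of_le le_top)]
    have e2 : (X + Y) ^ j = fun ω => ∑ i ∈ range (j + 1), (j.choose i : ℝ) * (X ^ i * Y ^ (j - i)) ω := by
      funext ω
      rw [Pi.pow_apply, Pi.add_apply, add_pow]
      refine sum_congr rfl fun i _ => ?_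
      rw [Pi.mul_apply, Pi.pow_apply, Pi.pow_apply]; ring
    rw [e2, integral_finsetSum]
    · refine sum_congr rfl fun i hi => ?_
      rw [mem_range] at hi
      rw [integral_const_mul, h i (j - i) (by omega), iteratedDeriv_mgf_zero (hX.mem_interior 0),
        iteratedDeriv_mgf_zero (hY.mem_interior 0), mul_assoc]
    · intro i _
      exact ((hX.pow i).mul (hY.pow (j - i))).integrable.const_mul _

end prob

end Q33.Cum
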