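import Mathlib
import Pool.Agent.Q33.Cum.Basic

/-!
Trigonometric polynomials on `[0,1]`, moments of the cosine and the Bessel function `I₀`.
-/

namespace Q33.Cum

open MeasureTheory ProbabilityTheory Finset Filter Topology

/-- Lebesgue measure on `[0,1]` -/
noncomputable def leb : Measure ℝ := volume.restrict (Set.Icc 0 1)

instance : IsProbabilityMeasure leb := ⟨by simp [leb]⟩

/-- `ω ↦ cos (2π b ω)` -/
noncomputable def co (b : ℤ) : ℝ → ℝ := fun ω => Real.cos (2 * Real.pi * b * ω)

theorem bdd_co (b : ℤ) : Bdd (co b) := by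
  refine ⟨?_, 1, fun ω => Real.abs_cos_le_one _⟩
  unfold co
  fun_prop

theorem integral_co (b : ℤ) : ∫ ω, co b ω ∂leb = if b = 0 then 1 else 0 := by
  rw [leb, integral_Icc_eq_integral_Ioc, ← intervalIntegral.integral_of_le zero_le_one]
  split_ifs with h
  · subst h
    simp [co]
  · unfold co
    have hc : 2 * Real.pi * (b : ℝ) ≠ 0 :=
      mul_ne_zero (mul_ne_zero two_ne_zero Real.pi_ne_zero) (by exact_mod_cast h)
    rw [intervalIntegral.integral_comp_mul_left (fun x => Real.cos x) hc, integral_cos]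
    have : Real.sin (2 * Real.pi * b * 1) = 0 := by
      rw [mul_one, show 2 * Real.pi * (b : ℝ) = (2 * b : ℤ) * Real.pi by push_cast; ring]
      exact Real.sin_int_mul_pi _
    rw [this]
    simp

theorem co_mul (a b : ℤ) : co a * co b = (1 / 2 : ℝ) • co (a + b) + (1 / 2 : ℝ) • co (a - b) := by
  funext ω
  simp only [co, Pi.mul_apply, Pi.add_apply, Pi.smul_apply, smul_eq_mul]
  push_cast
  have e1 : 2 * Real.pi * ((a : ℝ) + b) * ω = 2 * Real.pi * a * ω + 2 * Real.pi * b * ω := by ring
  have e2 : 2 * Real.pi * ((a : ℝ) - b) * ω = 2 * Real.pi * a * ω - 2 * Real.pi * b * ω := by ring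
  rw [e1, e2, Real.cos_add, Real.cos_sub]
  ring

/-- span of the cosines with frequencies in `B` -/
noncomputable def T (B : Set ℤ) : Submodule ℝ (ℝ → ℝ) := Submodule.span ℝ (co '' B)

theorem co_mem {B : Set ℤ} {b : ℤ} (h : b ∈ B) : co b ∈ T B := Submodule.subset_span ⟨b, h, rfl⟩

theorem T_mono {B C : Set ℤ} (h : B ⊆ C) : T B ≤ T C := Submodule.span_mono (Set.image_mono h)

theorem bdd_of_mem {B : Set ℤ} {f : ℝ → ℝ} (h : f ∈ T B) : Bdd f := by
  induction h using Submodule.span_induction with
  | mem x hx => obtain ⟨b, _, rfl⟩ := hx; exact bdd_co b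
  | zero => exact bdd_zero
  | add x y _ _ hx hy => exact hx.add hy
  | smul c x _ hx => exact hx.smul c

theorem co_mul_mem {B C : Set ℤ} {a : ℤ} (hB : ∀ b ∈ B, a + b ∈ C ∧ a - b ∈ C) {f : ℝ → ℝ}
    (h : f ∈ T B) : co a * f ∈ T C := by
  induction h using Submodule.span_induction with
  | mem x hx =>
    obtain ⟨b, hb, rfl⟩ := hx
    rw [co_mul]
    exact Submodule.add_mem _ (Submodule.smul_mem _ _ (co_mem (hB b hb).1))
      (Submodule.smul_mem _ _ (co_mem (hB b hb).2))
  | zero => rw [mul_zero]; exact Submodule.zero_mem _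
  | add x y _ _ hx hy => rw [mul_add]; exact Submodule.add_mem _ hx hy
  | smul c x _ hx => rw [mul_smul_comm]; exact Submodule.smul_mem _ _ hx

theorem integral_mul_of {B C : Set ℤ} (h : ∀ b ∈ B, ∀ c ∈ C, c ≠ 0 → b + c ≠ 0 ∧ b - c ≠ 0)
    {f g : ℝ → ℝ} (hf : f ∈ T B) (hg : g ∈ T C) :
    ∫ ω, (f * g) ω ∂leb = (∫ ω, f ω ∂leb) * ∫ ω, g ω ∂leb := by
  induction hf using Submodule.span_induction with
  | zero => simp
  | add x y hx hy ihx ihy =>
    have bx := bdd_of_mem (B := B) hx
    have bY := bdd_of_mem (B := B) hy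
    have bg := bdd_of_mem hg
    rw [add_mul]
    simp only [Pi.add_apply]
    rw [integral_add (bx.mul bg).integrable (bY.mul bg).integrable,
      integral_add bx.integrable bY.integrable, ihx, ihy, add_mul]
  | smul c x hx ihx =>
    rw [smul_mul_assoc]
    simp only [Pi.smul_apply, smul_eq_mul]
    rw [integral_const_mul, integral_const_mul, ihx, mul_assoc]
  | mem x hx =>
    obtain ⟨b, hb, rfl⟩ := hx
    induction hg using Submodule.span_induction with
    | zero => simp
    | add y z hy hz ihy ihz =>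
      have b1 := bdd_of_mem (B := C) hy
      have b2 := bdd_of_mem (B := C) hz
      have bb := bdd_co b
      rw [mul_add]
      simp only [Pi.add_apply]
      rw [integral_add (bb.mul b1).integrable (bb.mul b2).integrable,
        integral_add b1.integrable b2.integrable, ihy, ihz, mul_add]
    | smul c y hy ihy =>
      rw [mul_smul_comm]
      simp only [Pi.smul_apply, smul_eq_mul]
      rw [integral_const_mul, integral_const_mul, ihy]; ring
    | mem y hy =>
      obtain ⟨c, hc, rfl⟩ := hy
      rw [co_mul]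
      simp only [Pi.add_apply, Pi.smul_apply, smul_eq_mul]
      rw [integral_add ((bdd_co _).integrable.const_mul _) ((bdd_co _).integrable.const_mul _),
        integral_const_mul, integral_const_mul, integral_co, integral_co, integral_co, integral_co]
      by_cases hc0 : c = 0
      · subst hc0
        rw [add_zero, sub_zero, if_pos rfl]; ring
      · obtain ⟨h1, h2⟩ := h b hb c hc hc0
        rw [if_neg h1, if_neg h2, if_neg hc0]; ring

/-- powers of a cosine -/
theorem co_pow_mem (a : ℤ) (i : ℕ) : co a ^ i ∈ T {x | ∃ c : ℤ, |c| ≤ i ∧ x = c * a} := by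
  induction i with
  | zero =>
    have : (co a) ^ 0 = co 0 := by
      funext ω; simp [co]
    rw [this]
    exact co_mem ⟨0, by simp, by simp⟩
  | succ i ih =>
    rw [pow_succ']
    refine co_mul_mem ?_ ih
    rintro b ⟨c, hc, rfl⟩
    refine ⟨⟨1 + c, ?_, by ring⟩, ⟨1 - c, ?_, by ring⟩⟩
    · rw [abs_le] at hc ⊢; push_cast; constructor <;> linarith [hc.1, hc.2]
    · rw [abs_le] at hc ⊢; push_cast; constructor <;> linarith [hc.1, hc.2]

theorem cos_pow_formula (N : ℕ) (s θ : ℝ) :
    ∑ k ∈ range (N + 1), (Nat.choose N k : ℝ) * Real.cos (s + (N - 2 * k) * θ) =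
      (2 * Real.cos θ) ^ N * Real.cos s := by
  induction N generalizing s with
  | zero => simp
  | succ N ih =>
    have h1 : ∑ i ∈ range (N + 1 + 1), (Nat.choose (N + 1) i : ℝ) *
        Real.cos (s + (((N + 1 : ℕ) : ℝ) - 2 * i) * θ) =
        ∑ i ∈ range (N + 1), (Nat.choose N i : ℝ) * Real.cos (s + θ + (N - 2 * i) * θ) +
        ∑ i ∈ range (N + 1), (Nat.choose N i : ℝ) * Real.cos (s - θ + (N - 2 * i) * θ) := by
      rw [sum_range_succ']
      have h2 : ∀ i ∈ range (N + 1), (Nat.choose (N + 1) (i + 1) : ℝ) *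
          Real.cos (s + (((N + 1 : ℕ) : ℝ) - 2 * ((i + 1 : ℕ) : ℝ)) * θ) =
          (Nat.choose N i : ℝ) * Real.cos (s - θ + (N - 2 * i) * θ) +
          (Nat.choose N (i + 1) : ℝ) * Real.cos (s + θ + (N - 2 * ((i + 1 : ℕ) : ℝ)) * θ) := by
        intro i _
        rw [Nat.choose_succ_succ]
        push_cast
        rw [show s + ((N : ℝ) + 1 - 2 * (i + 1)) * θ = s - θ + (N - 2 * i) * θ by ring,
          show s + θ + ((N : ℝ) - 2 * (i + 1)) * θ = s - θ + (N - 2 * i) * θ by ring]
        ring
      rw [sum_congr rfl h2, sum_add_distrib]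
      have h3 : ∑ i ∈ range (N + 1), (Nat.choose N (i + 1) : ℝ) *
          Real.cos (s + θ + (N - 2 * ((i + 1 : ℕ) : ℝ)) * θ) + (Nat.choose (N + 1) 0 : ℝ) *
          Real.cos (s + (((N + 1 : ℕ) : ℝ) - 2 * ((0 : ℕ) : ℝ)) * θ) =
          ∑ i ∈ range (N + 1), (Nat.choose N i : ℝ) * Real.cos (s + θ + (N - 2 * i) * θ) := by
        have h4 := sum_range_succ' (fun i => (Nat.choose N i : ℝ) *
          Real.cos (s + θ + (N - 2 * i) * θ)) (N + 1)
        rw [sum_range_succ, Nat.choose_succ_self, Nat.cast_zero, zero_mul, add_zero] at h4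
        rw [h4]
        congr 1
        simp only [Nat.choose_zero_right, Nat.cast_one, Nat.cast_zero, mul_zero, sub_zero, one_mul]
        congr 1
        push_cast
        ring
      linarith
    rw [h1, ih, ih, ← mul_add]
    have h5 : Real.cos (s + θ) + Real.cos (s - θ) = 2 * Real.cos θ * Real.cos s := by
      rw [Real.cos_add, Real.cos_sub]; ring
    rw [h5]; ring

theorem integral_co_pow {a : ℤ} (ha : a ≠ 0) (N : ℕ) :
    ∫ ω, (co a ω) ^ N ∂leb = if Even N then (Nat.choose N (N / 2) : ℝ) / 2 ^ N else 0 := by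
  have h1 : ∀ ω, (co a ω) ^ N = ∑ k ∈ range (N + 1), (Nat.choose N k : ℝ) / 2 ^ N *
      co ((N - 2 * k) * a) ω := by
    intro ω
    have h := cos_pow_formula N 0 (2 * Real.pi * a * ω)
    rw [Real.cos_zero, mul_one, mul_pow] at h
    have h2 : (co a ω) ^ N = (∑ k ∈ range (N + 1), (Nat.choose N k : ℝ) *
        Real.cos (0 + (N - 2 * k) * (2 * Real.pi * a * ω))) / 2 ^ N := by
      rw [h, co]; field_simp
    rw [h2, sum_div]
    refine sum_congr rfl fun k _ => ?_
    simp only [co]
    push_cast
    rw [show 0 + ((N : ℝ) - 2 * k) * (2 * Real.pi * a * ω) =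
      2 * Real.pi * (((N : ℝ) - 2 * k) * a) * ω by ring]
    ring
  simp only [h1]
  rw [integral_finsetSum _ (fun k _ => (bdd_co _).integrable.const_mul _)]
  simp only [integral_const_mul, integral_co]
  split_ifs with hN
  · obtain ⟨M, hM⟩ := hN
    subst hM
    rw [sum_eq_single M]
    · have e : (((M + M : ℕ) : ℤ) - 2 * (M : ℤ)) * a = 0 := by push_cast; ring
      rw [if_pos e, mul_one, show (M + M) / 2 = M by omega]
    · intro k _ hk
      rw [if_neg, mul_zero]
      intro h0
      rcases mul_eq_zero.1 h0 with h | h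
      · apply hk; push_cast at h; omega
      · exact ha h
    · intro h
      exact absurd (mem_range.2 (by omega)) h
  · refine sum_eq_zero fun k _ => ?_
    rw [if_neg, mul_zero]
    intro h0
    rcases mul_eq_zero.1 h0 with h | h
    · apply hN
      exact ⟨k, by omega⟩
    · exact ha h

/-- the Bessel function `I₀` -/
noncomputable def I0 (t : ℝ) : ℝ := ∑' j : ℕ, (t / 2) ^ (2 * j) / ((j.factorial : ℝ)) ^ 2

theorem mgf_co {a : ℤ} (ha : a ≠ 0) (t : ℝ) : ∫ ω, Real.exp (t * co a ω) ∂leb = I0 t := by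
  have h1 : HasSum (fun n : ℕ => ∫ ω, (t * co a ω) ^ n / (n.factorial : ℝ) ∂leb)
      (∫ ω, Real.exp (t * co a ω) ∂leb) := by
    have h2 : ∀ ω, Real.exp (t * co a ω) = ∑' n : ℕ, (t * co a ω) ^ n / (n.factorial : ℝ) := by
      intro ω
      rw [Real.exp_eq_exp_ℝ, NormedSpace.exp_eq_tsum_div]
    simp only [h2]
    refine hasSum_integral_of_summable_integral_norm (F := fun n ω => (t * co a ω) ^ n / (n.factorial : ℝ)) ?_ ?_
    · intro n
      have := (((bdd_co a).smul t).pow n).integrable (μ := leb)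
      exact this.div_const _
    · refine Summable.of_nonneg_of_le (fun n => integral_nonneg fun ω => norm_nonneg _)
        (fun n => ?_) (Real.summable_pow_div_factorial |t|)
      have h3 : ∀ ω, ‖(t * co a ω) ^ n / (n.factorial : ℝ)‖ ≤ |t| ^ n / n.factorial := by
        intro ω
        rw [norm_div, norm_pow, Real.norm_eq_abs, abs_mul, Real.norm_of_nonneg (by positivity)]
        gcongr
        calc |t| * |co a ω| ≤ |t| * 1 :=
              mul_le_mul_of_nonneg_left (Real.abs_cos_le_one _) (abs_nonneg _)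
          _ = |t| := mul_one _
      calc ∫ ω, ‖(t * co a ω) ^ n / (n.factorial : ℝ)‖ ∂leb
          ≤ ∫ _ω, |t| ^ n / (n.factorial : ℝ) ∂leb := by
            refine integral_mono ?_ (integrable_const _) h3
            exact ((((bdd_co a).smul t).pow n).integrable (μ := leb)).div_const _ |>.norm
        _ = _ := by simp
  have h4 : ∀ n : ℕ, ∫ ω, (t * co a ω) ^ n / (n.factorial : ℝ) ∂leb =
      if Even n then t ^ n * ((Nat.choose n (n / 2) : ℝ) / 2 ^ n) / n.factorial else 0 := by
    intro n
    have : ∀ ω, (t * co a ω) ^ n / (n.factorial : ℝ) = (t ^ n / n.factorial) * (co a ω) ^ n := by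
      intro ω; rw [mul_pow]; ring
    simp only [this]
    rw [integral_const_mul, integral_co_pow ha]
    split_ifs <;> ring
  simp only [h4] at h1
  have hinj : Function.Injective (fun j : ℕ => 2 * j) := fun x y h => by
    have : 2 * x = 2 * y := h
    omega
  have h5 := (hinj.hasSum_iff (f := fun n : ℕ => if Even n then
      t ^ n * ((Nat.choose n (n / 2) : ℝ) / 2 ^ n) / n.factorial else 0) ?_).2 h1
  · rw [I0]
    rw [← h5.tsum_eq]
    refine tsum_congr fun j => ?_
    simp only [Function.comp]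
    rw [if_pos (even_two_mul j), show 2 * j / 2 = j by omega]
    have h6 : ((2 * j).factorial : ℝ) = Nat.choose (2 * j) j * j.factorial * j.factorial := by
      have := Nat.choose_mul_factorial_mul_factorial (show j ≤ 2 * j by omega)
      rw [show 2 * j - j = j by omega] at this
      exact_mod_cast this.symm
    rw [h6]
    have h7 : (Nat.choose (2 * j) j : ℝ) ≠ 0 := by
      exact_mod_cast (Nat.choose_pos (by omega)).ne'
    have h8 : (j.factorial : ℝ) ≠ 0 := by exact_mod_cast j.factorial_ne_zero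
    rw [div_pow]
    field_simp
  · intro n hn
    rw [if_neg]
    intro he
    obtain ⟨k, hk⟩ := he
    exact hn ⟨k, by simp only; omega⟩

/-- cumulants of the arcsine law -/
noncomputable def kt (m : ℕ) : ℝ := iteratedDeriv m (fun t => Real.log (I0 t)) 0

theorem kappa_co {a : ℤ} (ha : a ≠ 0) (m : ℕ) : kappa m (co a) leb = kt m := by
  rw [kappa, kt]
  simp only [mgf_co ha]

end Q33.Cum
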