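import Mathlib
import Pool.Agent.Q33.Cum.Circle

/-!
Greedy choice of a sequence of integers with a given limit of the ratios and without short
linear relations.
-/

namespace Q33.Cum

open Finset Filter Topology

/-- signed sums of at most `d` elements of `A` -/
def B (A : Finset ℤ) : ℕ → Finset ℤ
  | 0 => {0}
  | d + 1 => B A d ∪ (((B A d ×ˢ A).image (fun x => x.2 + x.1)) ∪
      ((B A d ×ˢ A).image (fun x => x.2 - x.1)))

theorem B_succ (A : Finset ℤ) (d : ℕ) : B A d ⊆ B A (d + 1) := by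
  intro x hx
  rw [B, mem_union]
  exact Or.inl hx

theorem B_mono (A : Finset ℤ) {d e : ℕ} (h : d ≤ e) : B A d ⊆ B A e := by
  induction h with
  | refl => exact fun x h => h
  | step _ ih => exact ih.trans (B_succ A _)

theorem B_add {A : Finset ℤ} {d : ℕ} {a b : ℤ} (ha : a ∈ A) (hb : b ∈ B A d) :
    a + b ∈ B A (d + 1) ∧ a - b ∈ B A (d + 1) := by
  constructor
  · rw [B, mem_union, mem_union]
    exact Or.inr (Or.inl (mem_image.2 ⟨(b, a), mem_product.2 ⟨hb, ha⟩, rfl⟩))
  · rw [B, mem_union, mem_union]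
    exact Or.inr (Or.inr (mem_image.2 ⟨(b, a), mem_product.2 ⟨hb, ha⟩, rfl⟩))

theorem card_B (A : Finset ℤ) (d : ℕ) : (B A d).card ≤ (2 * A.card + 1) ^ d := by
  induction d with
  | zero => simp [B]
  | succ d ih =>
    have h1 : ((B A d ×ˢ A).image (fun x : ℤ × ℤ => x.2 + x.1)).card ≤ (B A d).card * A.card := by
      rw [← card_product]; exact card_image_le
    have h2 : ((B A d ×ˢ A).image (fun x : ℤ × ℤ => x.2 - x.1)).card ≤ (B A d).card * A.card := by
      rw [← card_product]; exact card_image_le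
    have h3 : (B A (d + 1)).card ≤ (B A d).card + ((B A d).card * A.card + (B A d).card * A.card) := by
      rw [B]
      refine (card_union_le _ _).trans (Nat.add_le_add_left ((card_union_le _ _).trans ?_) _)
      exact Nat.add_le_add h1 h2
    calc (B A (d + 1)).card ≤ (B A d).card + ((B A d).card * A.card + (B A d).card * A.card) := h3
      _ = (B A d).card * (2 * A.card + 1) := by ring
      _ ≤ (2 * A.card + 1) ^ d * (2 * A.card + 1) := Nat.mul_le_mul_right _ ih
      _ = _ := by rw [pow_succ]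

/-- the numbers to be avoided -/
def bad (A : Finset ℤ) (m : ℕ) : Finset ℕ :=
  (B A m ×ˢ Icc 1 m).image (fun x : ℤ × ℕ => x.1.natAbs / x.2)

theorem card_bad (A : Finset ℤ) (m : ℕ) : (bad A m).card ≤ (2 * A.card + 1) ^ m * m := by
  refine card_image_le.trans ?_
  rw [card_product, Nat.card_Icc]
  exact Nat.mul_le_mul (card_B A m) (by omega)

theorem not_bad {A : Finset ℤ} {m x : ℕ} (hx : x ∉ bad A m) {b c : ℤ} (hb : b ∈ B A m)
    (hc : c ≠ 0) (hcm : |c| ≤ m) : b + c * x ≠ 0 ∧ b - c * x ≠ 0 := by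
  have key : b.natAbs ≠ c.natAbs * x := by
    intro h
    apply hx
    rw [bad, mem_image]
    have hc0 : 0 < c.natAbs := Int.natAbs_pos.2 hc
    refine ⟨(b, c.natAbs), mem_product.2 ⟨hb, mem_Icc.2 ⟨hc0, ?_⟩⟩, ?_⟩
    · have : ((c.natAbs : ℕ) : ℤ) ≤ m := by rw [Int.natCast_natAbs]; exact hcm
      exact_mod_cast this
    · simp only
      rw [h]
      exact Nat.mul_div_cancel_left x hc0
  constructor
  · intro h
    apply key
    have : b = -(c * x) := by linarith
    rw [this, Int.natAbs_neg, Int.natAbs_mul, Int.natAbs_natCast]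
  · intro h
    apply key
    have : b = c * x := by linarith
    rw [this, Int.natAbs_mul, Int.natAbs_natCast]

theorem exists_next (A : Finset ℤ) (m : ℕ) (L : ℕ) :
    ∃ y, L < y ∧ y ≤ L + (bad A m).card + 1 ∧ y ∉ bad A m := by
  by_contra hcon
  push Not at hcon
  have h1 : Icc (L + 1) (L + (bad A m).card + 1) ⊆ bad A m := by
    intro y hy
    rw [mem_Icc] at hy
    exact hcon y (by omega) hy.2
  have h2 := card_le_card h1
  rw [Nat.card_Icc] at h2
  omega

noncomputable def lev (n x : ℕ) : ℕ :=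
  Nat.findGreatest (fun m => m * ((2 * n + 1) ^ m * m) ≤ x) n

/-- the states of the greedy construction: the set of the numbers chosen and the last one -/
noncomputable def st (η : ℝ) : ℕ → Finset ℤ × ℕ
  | 0 => (∅, 1)
  | n + 1 =>
    let y := Classical.choose (exists_next (st η n).1 (lev n (st η n).2) ⌊η * (st η n).2⌋₊)
    (insert (y : ℤ) (st η n).1, y)

noncomputable def sq (η : ℝ) (n : ℕ) : ℕ := (st η n).2

theorem sq_spec (η : ℝ) (n : ℕ) :
    ⌊η * sq η n⌋₊ < sq η (n + 1) ∧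
      sq η (n + 1) ≤ ⌊η * sq η n⌋₊ + (bad (st η n).1 (lev n (sq η n))).card + 1 ∧
      sq η (n + 1) ∉ bad (st η n).1 (lev n (sq η n)) := by
  have h := Classical.choose_spec
    (exists_next (st η n).1 (lev n (st η n).2) ⌊η * (st η n).2⌋₊)
  exact h

theorem st_fst (η : ℝ) (n : ℕ) : (st η n).1 = (Icc 1 n).image (fun k => ((sq η k : ℕ) : ℤ)) := by
  induction n with
  | zero => simp [st]
  | succ n ih =>
    have : (st η (n + 1)).1 = insert ((sq η (n + 1) : ℕ) : ℤ) (st η n).1 := rfl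
    have h2 : Icc 1 (n + 1) = insert (n + 1) (Icc 1 n) := by
      ext k
      simp only [mem_insert, mem_Icc]
      omega
    rw [this, ih, h2, image_insert]

theorem card_st (η : ℝ) (n : ℕ) : (st η n).1.card ≤ n := by
  rw [st_fst]
  refine card_image_le.trans ?_
  rw [Nat.card_Icc]; omega

variable {η : ℝ}

theorem lt_sq (h : 1 < η) (n : ℕ) : η * sq η n < sq η (n + 1) := by
  exact (Nat.floor_lt (by positivity)).1 (sq_spec η n).1

theorem pow_le_sq (h : 1 < η) (n : ℕ) : η ^ n ≤ sq η n := by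
  induction n with
  | zero => simp [sq, st]
  | succ n ih =>
    have := lt_sq h n
    rw [pow_succ']
    exact (mul_le_mul_of_nonneg_left ih (by linarith)).trans this.le

theorem sq_pos (h : 1 < η) (n : ℕ) : 0 < sq η n := by
  have := pow_le_sq h n
  have h2 : 0 < η ^ n := pow_pos (by linarith) n
  exact_mod_cast h2.trans_le this

theorem sq_strictMono (h : 1 < η) : StrictMono (sq η) := by
  refine strictMono_nat_of_lt_succ fun n => ?_
  have h1 := lt_sq h n
  have h2 : (0 : ℝ) < sq η n := by exact_mod_cast sq_pos h n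
  have h3 : (sq η n : ℝ) < sq η (n + 1) := by nlinarith
  exact_mod_cast h3

theorem lev_tendsto (h : 1 < η) (M : ℕ) : ∀ᶠ n in atTop, M ≤ lev n (sq η n) := by
  have h1 : Tendsto (fun n : ℕ => ((n : ℝ) ^ M) / η ^ n) atTop (𝓝 0) :=
    tendsto_pow_const_div_const_pow_of_one_lt M h
  have hc : (0 : ℝ) < 1 / (M * M * 3 ^ M + 1) := by positivity
  have h2 := h1.eventually (gt_mem_nhds hc)
  filter_upwards [h2, eventually_ge_atTop M, eventually_ge_atTop 1] with n hn1 hn2 hn3
  refine Nat.le_findGreatest hn2 ?_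
  have hη : (0 : ℝ) < η ^ n := pow_pos (by linarith) n
  have h3 : (n : ℝ) ^ M * (M * M * 3 ^ M + 1) < η ^ n := by
    rw [div_lt_div_iff₀ hη (by positivity)] at hn1
    linarith
  have h4 : ((M * ((2 * n + 1) ^ M * M) : ℕ) : ℝ) ≤ (n : ℝ) ^ M * (M * M * 3 ^ M + 1) := by
    push_cast
    have h5 : (2 * (n : ℝ) + 1) ^ M ≤ (3 * n) ^ M := by
      apply pow_le_pow_left₀ (by positivity)
      have : (1 : ℝ) ≤ n := by exact_mod_cast hn3
      linarith
    rw [mul_pow] at h5
    have h6 : (M : ℝ) * ((2 * n + 1) ^ M * M) ≤ M * ((3 ^ M * n ^ M) * M) := by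
      gcongr
    have h7 : (0 : ℝ) ≤ (n : ℝ) ^ M := by positivity
    nlinarith
  have h8 : ((M * ((2 * n + 1) ^ M * M) : ℕ) : ℝ) ≤ sq η n :=
    h4.trans (h3.le.trans (pow_le_sq h n))
  exact_mod_cast h8

theorem lev_spec (n x : ℕ) : lev n x * ((2 * n + 1) ^ lev n x * lev n x) ≤ x := by
  have := Nat.findGreatest_spec (P := fun m => m * ((2 * n + 1) ^ m * m) ≤ x) (Nat.zero_le n)
    (by simp)
  exact this

theorem sq_le (h : 1 < η) (n : ℕ) (hl : 1 ≤ lev n (sq η n)) :
    (sq η (n + 1) : ℝ) ≤ η * sq η n + sq η n / lev n (sq η n) + 1 := by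
  have h1 := (sq_spec η n).2.1
  have h2 : ((sq η (n + 1) : ℕ) : ℝ) ≤ ⌊η * sq η n⌋₊ + (bad (st η n).1 (lev n (sq η n))).card + 1 := by
    exact_mod_cast h1
  have h3 : ((⌊η * sq η n⌋₊ : ℕ) : ℝ) ≤ η * sq η n := Nat.floor_le (by positivity)
  have h4 : (bad (st η n).1 (lev n (sq η n))).card ≤
      (2 * n + 1) ^ (lev n (sq η n)) * lev n (sq η n) := by
    refine (card_bad _ _).trans ?_
    gcongr
    exact card_st η n
  have h5 : lev n (sq η n) * (bad (st η n).1 (lev n (sq η n))).card ≤ sq η n :=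
    (Nat.mul_le_mul_left _ h4).trans (lev_spec n (sq η n))
  have h6 : ((bad (st η n).1 (lev n (sq η n))).card : ℝ) ≤ sq η n / lev n (sq η n) := by
    rw [le_div_iff₀ (by exact_mod_cast hl)]
    rw [mul_comm]
    exact_mod_cast h5
  linarith

theorem ratio_tendsto (h : 1 < η) :
    Tendsto (fun n => (sq η (n + 1) : ℝ) / sq η n) atTop (𝓝 η) := by
  rw [Metric.tendsto_atTop]
  intro ε hε
  obtain ⟨M, hM⟩ := exists_nat_gt (2 / ε)
  have hM0 : (0 : ℝ) < M := lt_trans (by positivity) hM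
  have h1 : ∀ᶠ n in atTop, M ≤ lev n (sq η n) := lev_tendsto h M
  have h2 : ∀ᶠ n : ℕ in atTop, (M : ℝ) ≤ sq η n := by
    have : Tendsto (fun n : ℕ => η ^ n) atTop atTop := tendsto_pow_atTop_atTop_of_one_lt h
    filter_upwards [this.eventually_ge_atTop (M : ℝ)] with n hn
    exact hn.trans (pow_le_sq h n)
  obtain ⟨N, hN⟩ := eventually_atTop.1 (h1.and h2)
  refine ⟨N, fun n hn => ?_⟩
  obtain ⟨h3, h4⟩ := hN n hn
  have hM1 : 1 ≤ M := by
    have : (0 : ℝ) < M := hM0
    exact_mod_cast this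
  have hs : (0 : ℝ) < sq η n := by exact_mod_cast sq_pos h n
  have hl : (M : ℝ) ≤ lev n (sq η n) := by exact_mod_cast h3
  have h5 := sq_le h n (hM1.trans h3)
  have h6 := lt_sq h n
  rw [Real.dist_eq, abs_lt]
  constructor
  · have : η < (sq η (n + 1) : ℝ) / sq η n := by
      rw [lt_div_iff₀ hs]; exact h6
    linarith
  · have h7 : (sq η (n + 1) : ℝ) / sq η n ≤ η + 1 / lev n (sq η n) + 1 / sq η n := by
      rw [div_le_iff₀ hs]
      have : (η + 1 / lev n (sq η n) + 1 / sq η n) * (sq η n : ℝ) =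
          η * sq η n + sq η n / lev n (sq η n) + 1 := by
        field_simp
      rw [this]; exact h5
    have h8 : 1 / (lev n (sq η n) : ℝ) ≤ 1 / M := one_div_le_one_div_of_le hM0 hl
    have h9 : 1 / (sq η n : ℝ) ≤ 1 / M := one_div_le_one_div_of_le hM0 h4
    have h10 : 1 / (M : ℝ) < ε / 2 := by
      rw [div_lt_iff₀ hM0]
      rw [div_lt_iff₀ hε] at hM
      linarith
    linarith

/-- partial sums -/
noncomputable def S (a : ℕ → ℕ) (n : ℕ) : ℝ → ℝ :=
  fun ω => ∑ k ∈ Icc 1 n, Real.cos (2 * Real.pi * a k * ω)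

theorem S_eq (a : ℕ → ℕ) (n : ℕ) : S a n = ∑ k ∈ Icc 1 n, co (a k) := by
  funext ω
  rw [Finset.sum_apply]
  rfl

theorem S_succ (a : ℕ → ℕ) (n : ℕ) : S a (n + 1) = S a n + co (a (n + 1)) := by
  rw [S_eq, S_eq, ← insert_Icc_right_eq_Icc_add_one (by omega), sum_insert (by simp), add_comm]

theorem S_pow_mem (a : ℕ → ℕ) (n i : ℕ) :
    S a n ^ i ∈ T (B ((Icc 1 n).image (fun k => ((a k : ℕ) : ℤ))) i : Set ℤ) := by
  induction i with
  | zero =>
    have : S a n ^ 0 = co 0 := by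
      funext ω; simp [co]
    rw [this]
    exact co_mem (by simp [B])
  | succ i ih =>
    rw [pow_succ']
    nth_rewrite 1 [S_eq]
    rw [sum_mul]
    refine Submodule.sum_mem _ fun k hk => ?_
    refine co_mul_mem ?_ ih
    intro b hb
    exact B_add (mem_image_of_mem _ hk) hb

theorem bdd_S (a : ℕ → ℕ) (n : ℕ) : Bdd (S a n) := by
  have := bdd_of_mem (S_pow_mem a n 1)
  rwa [pow_one] at this

theorem kappa_step (h : 1 < η) (m n : ℕ) (hl : m ≤ lev n (sq η n)) :
    kappa m (S (sq η) (n + 1)) leb = kappa m (S (sq η) n) leb + kt m := by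
  have ha : ((sq η (n + 1) : ℕ) : ℤ) ≠ 0 := by exact_mod_cast (sq_pos h (n + 1)).ne'
  rw [S_succ, kappa_add (bdd_S _ _) (bdd_co _) m, kappa_co ha]
  intro i j hij
  refine integral_mul_of ?_ (S_pow_mem (sq η) n i) (co_pow_mem _ j)
  rintro b hb c ⟨c', hc', rfl⟩ hc0
  have hc1 : c' ≠ 0 := by rintro rfl; simp at hc0
  rw [← st_fst] at hb
  refine not_bad (m := lev n (sq η n)) (sq_spec η n).2.2 (B_mono _ (by omega) hb) hc1 ?_
  have : (j : ℤ) ≤ (lev n (sq η n) : ℕ) := by exact_mod_cast (by omega : j ≤ lev n (sq η n))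
  linarith

end Q33.Cum
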